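import Pool.Agent.Helper93.KP.St
import Pool.Agent.Helper15.TW.M_BIL

/-!
# Project KP, module BIV: Cauchy-Schwarz for the multilinear Kloosterman form
-/

set_option autoImplicit false

noncomputable section

namespace Pool.Agent.Helper69.KP

open Finset Filter Topology Pool.Agent.Helper93.KP
open Pool.Agent.Helper15.AB (ee Kl StDB StMT)
open Pool.Agent.Helper15.AB.hPQ (ee_add ee_norm)
open Pool.Agent.Helper9.TW (iv)
open Pool.Agent.Helper15.TW (bil_sq)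

private theorem sqf_BIV (x y y₁ : ℕ) (h : Squarefree (x * y)) (h₁ : Squarefree (x * y₁)) :
    Squarefree (x * Nat.lcm y y₁) := by
  have h0 : x * y ≠ 0 := h.ne_zero
  have h10 : x * y₁ ≠ 0 := h₁.ne_zero
  have e : x * Nat.lcm y y₁ = Nat.lcm (x * y) (x * y₁) := by
    rw [Nat.lcm_mul_left]
  rw [e, Nat.squarefree_iff_factorization_le_one (Nat.lcm_ne_zero h0 h10)]
  intro p
  rw [Nat.factorization_lcm h0 h10, Finsupp.sup_apply]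
  exact sup_le (h.natFactorization_le_one p) (h₁.natFactorization_le_one p)

private theorem cop_BIV (m x y y₁ : ℕ) (h : Nat.Coprime m (x * y)) (h₁ : Nat.Coprime m (x * y₁)) :
    Nat.Coprime m (x * Nat.lcm y y₁) := by
  have hx : Nat.Coprime m x := Nat.Coprime.coprime_mul_right_right h
  have hy : Nat.Coprime m y := Nat.Coprime.coprime_mul_left_right h
  have hy₁ : Nat.Coprime m y₁ := Nat.Coprime.coprime_mul_left_right h₁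
  exact Nat.Coprime.mul_right hx
    (Nat.Coprime.coprime_dvd_right (Nat.lcm_dvd_mul y y₁) (Nat.Coprime.mul_right hy hy₁))

/-- the summand of the form -/
private def fB (e g : ℕ) (c : ℤ) (x : ℕ) (γ : ℕ → ℕ → ℕ → ℂ) (m : ℕ) (v : ℕ × ℕ × ℕ) : ℂ :=
  if Squarefree (x * v.2.2) ∧ Nat.Coprime (x * v.2.2) (e * g * m * v.2.1) then
    γ v.1 v.2.1 v.2.2 * ee (((v.1 * c * (iv (x * v.2.2) (g * m * v.2.1) : ℤ) : ℤ) : ℝ) /
      ((x * v.2.2 : ℕ) : ℝ))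
  else 0

private theorem fB_norm (e g : ℕ) (c : ℤ) (x : ℕ) (γ : ℕ → ℕ → ℕ → ℂ)
    (hγ : ∀ h n y, ‖γ h n y‖ ≤ 1) (m : ℕ) (v : ℕ × ℕ × ℕ) : ‖fB e g c x γ m v‖ ≤ 1 := by
  unfold fB
  split_ifs
  · rw [norm_mul, ee_norm, mul_one]
    exact hγ _ _ _
  · rw [norm_zero]
    exact zero_le_one

private theorem inner_BIV (hP : StPHA) (C₁ ε' : ℝ) (hC₁ : 0 < C₁)
    (hI : ∀ (r e μ : ℕ) (κ : ℤ) (M₁ M₂ : ℕ), Squarefree r →
      1 ≤ e → Nat.Coprime e r → M₁ ≤ M₂ →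
      ‖∑ m ∈ (Ioc M₁ M₂).filter (fun m => m % e = μ ∧ Nat.Coprime m r),
        ee (((κ * (iv r m : ℤ) : ℤ) : ℝ) / r)‖ ≤
      C₁ * (r : ℝ) ^ ε' * √(Int.gcd κ r : ℝ) * (√(r : ℝ) + ((M₂ : ℝ) - M₁) / √(r : ℝ)))
    (e μ g M₁ M₂ : ℕ) (c : ℤ) (he : 1 ≤ e) (hc : c ≠ 0) (hM : M₁ ≤ M₂) (x : ℕ)
    (γ : ℕ → ℕ → ℕ → ℂ) (hγ : ∀ h n y, ‖γ h n y‖ ≤ 1) (h n y h₁ n₁ y₁ : ℕ) :
    ‖∑ m ∈ (Ioc M₁ M₂).filter (fun m => m % e = μ),
      fB e g c x γ m (h, n, y) * (starRingEnd ℂ) (fB e g c x γ m (h₁, n₁, y₁))‖ ≤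
    C₁ * ((x * Nat.lcm y y₁ : ℕ) : ℝ) ^ ε' * √|(c : ℝ)| *
      (√((x * Nat.lcm y y₁ : ℕ) : ℝ) + ((M₂ : ℝ) - M₁) / √((x * Nat.lcm y y₁ : ℕ) : ℝ)) *
      √(Int.gcd ((h : ℤ) * n₁ * ((y₁ / Nat.gcd y y₁ : ℕ) : ℤ) -
        h₁ * n * ((y / Nat.gcd y y₁ : ℕ) : ℤ)) ((x * Nat.lcm y y₁ : ℕ) : ℤ) : ℝ) := by
  have hM' : (0 : ℝ) ≤ (M₂ : ℝ) - M₁ := by
    have : (M₁ : ℝ) ≤ M₂ := by exact_mod_cast hM
    linarith
  by_cases hc1 : Squarefree (x * y) ∧ Nat.Coprime (x * y) (e * g * n)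
  swap
  · have h0 : ∑ m ∈ (Ioc M₁ M₂).filter (fun m => m % e = μ),
        fB e g c x γ m (h, n, y) * (starRingEnd ℂ) (fB e g c x γ m (h₁, n₁, y₁)) = 0 := by
      apply Finset.sum_eq_zero
      intro m _
      have h1 : fB e g c x γ m (h, n, y) = 0 := by
        unfold fB
        rw [if_neg]
        rintro ⟨h2, h3⟩
        apply hc1
        refine ⟨h2, ?_⟩
        have h4 : e * g * n ∣ e * g * m * n := ⟨m, by ring⟩
        exact Nat.Coprime.coprime_dvd_right h4 h3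
      rw [h1, zero_mul]
    rw [h0, norm_zero]
    positivity
  by_cases hc2 : Squarefree (x * y₁) ∧ Nat.Coprime (x * y₁) (e * g * n₁)
  swap
  · have h0 : ∑ m ∈ (Ioc M₁ M₂).filter (fun m => m % e = μ),
        fB e g c x γ m (h, n, y) * (starRingEnd ℂ) (fB e g c x γ m (h₁, n₁, y₁)) = 0 := by
      apply Finset.sum_eq_zero
      intro m _
      have h1 : fB e g c x γ m (h₁, n₁, y₁) = 0 := by
        unfold fB
        rw [if_neg]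
        rintro ⟨h2, h3⟩
        apply hc2
        refine ⟨h2, ?_⟩
        have h4 : e * g * n₁ ∣ e * g * m * n₁ := ⟨m, by ring⟩
        exact Nat.Coprime.coprime_dvd_right h4 h3
      rw [h1, map_zero, mul_zero]
    rw [h0, norm_zero]
    positivity
  obtain ⟨hs1, hq1⟩ := hc1
  obtain ⟨hs2, hq2⟩ := hc2
  have hg1 : Nat.Coprime (x * y) (g * n) := by
    have h4 : g * n ∣ e * g * n := ⟨e, by ring⟩
    exact Nat.Coprime.coprime_dvd_right h4 hq1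
  have hg2 : Nat.Coprime (x * y₁) (g * n₁) := by
    have h4 : g * n₁ ∣ e * g * n₁ := ⟨e, by ring⟩
    exact Nat.Coprime.coprime_dvd_right h4 hq2
  obtain ⟨κ, hκ1, hκ2⟩ := hP x y y₁ g n n₁ h h₁ c hc hs1 hs2 hg1 hg2
  have hsR := sqf_BIV x y y₁ hs1 hs2
  have heR : Nat.Coprime e (x * Nat.lcm y y₁) := by
    apply cop_BIV
    · exact (Nat.Coprime.coprime_dvd_right (⟨g * n, by ring⟩ : e ∣ e * g * n) hq1).symm
    · exact (Nat.Coprime.coprime_dvd_right (⟨g * n₁, by ring⟩ : e ∣ e * g * n₁) hq2).symm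
  have hI' := hI (x * Nat.lcm y y₁) e μ κ M₁ M₂ hsR he heR hM
  have hsum : ∑ m ∈ (Ioc M₁ M₂).filter (fun m => m % e = μ),
        fB e g c x γ m (h, n, y) * (starRingEnd ℂ) (fB e g c x γ m (h₁, n₁, y₁)) =
      (γ h n y * (starRingEnd ℂ) (γ h₁ n₁ y₁)) *
      ∑ m ∈ (Ioc M₁ M₂).filter (fun m => m % e = μ ∧ Nat.Coprime m (x * Nat.lcm y y₁)),
        ee (((κ * (iv (x * Nat.lcm y y₁) m : ℤ) : ℤ) : ℝ) / ((x * Nat.lcm y y₁ : ℕ) : ℝ)) := by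
    rw [← Finset.filter_filter, Finset.mul_sum, Finset.sum_filter (s := (Ioc M₁ M₂).filter
      (fun m => m % e = μ))]
    refine Finset.sum_congr rfl fun m _ => ?_
    by_cases hmR : Nat.Coprime m (x * Nat.lcm y y₁)
    · rw [if_pos hmR]
      have hd1 : x * y ∣ x * Nat.lcm y y₁ := Nat.mul_dvd_mul_left x (Nat.dvd_lcm_left y y₁)
      have hd2 : x * y₁ ∣ x * Nat.lcm y y₁ := Nat.mul_dvd_mul_left x (Nat.dvd_lcm_right y y₁)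
      have hm1 : Nat.Coprime (x * y) m := (Nat.Coprime.coprime_dvd_right hd1 hmR).symm
      have hm2 : Nat.Coprime (x * y₁) m := (Nat.Coprime.coprime_dvd_right hd2 hmR).symm
      have hk1 : Squarefree (x * y) ∧ Nat.Coprime (x * y) (e * g * m * n) := by
        refine ⟨hs1, ?_⟩
        have h5 : e * g * m * n = e * g * n * m := by ring
        rw [h5]
        exact Nat.Coprime.mul_right hq1 hm1
      have hk2 : Squarefree (x * y₁) ∧ Nat.Coprime (x * y₁) (e * g * m * n₁) := by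
        refine ⟨hs2, ?_⟩
        have h5 : e * g * m * n₁ = e * g * n₁ * m := by ring
        rw [h5]
        exact Nat.Coprime.mul_right hq2 hm2
      unfold fB
      rw [if_pos hk1, if_pos hk2, map_mul, ← hκ2 m hmR]
      ring
    · rw [if_neg hmR]
      unfold fB
      by_cases hk1 : Squarefree (x * y) ∧ Nat.Coprime (x * y) (e * g * m * n)
      · by_cases hk2 : Squarefree (x * y₁) ∧ Nat.Coprime (x * y₁) (e * g * m * n₁)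
        · exfalso
          apply hmR
          apply cop_BIV
          · exact (Nat.Coprime.coprime_dvd_right (⟨e * g * n, by ring⟩ : m ∣ e * g * m * n)
              hk1.2).symm
          · exact (Nat.Coprime.coprime_dvd_right (⟨e * g * n₁, by ring⟩ : m ∣ e * g * m * n₁)
              hk2.2).symm
        · have h5 : ¬ (Squarefree (x * ((h₁, n₁, y₁) : ℕ × ℕ × ℕ).2.2) ∧
              Nat.Coprime (x * ((h₁, n₁, y₁) : ℕ × ℕ × ℕ).2.2)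
                (e * g * m * ((h₁, n₁, y₁) : ℕ × ℕ × ℕ).2.1)) := hk2
          rw [if_neg h5, map_zero, mul_zero]
      · have h5 : ¬ (Squarefree (x * ((h, n, y) : ℕ × ℕ × ℕ).2.2) ∧
            Nat.Coprime (x * ((h, n, y) : ℕ × ℕ × ℕ).2.2)
              (e * g * m * ((h, n, y) : ℕ × ℕ × ℕ).2.1)) := hk1
        rw [if_neg h5, zero_mul]
  rw [hsum, norm_mul, norm_mul, RCLike.norm_conj]
  have hγγ : ‖γ h n y‖ * ‖γ h₁ n₁ y₁‖ ≤ 1 := mul_le_one₀ (hγ _ _ _) (norm_nonneg _) (hγ _ _ _)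
  refine (mul_le_of_le_one_left (norm_nonneg _) hγγ).trans (hI'.trans ?_)
  have hsq : √(Int.gcd κ ((x * Nat.lcm y y₁ : ℕ) : ℤ) : ℝ) ≤ √|(c : ℝ)| *
      √(Int.gcd ((h : ℤ) * n₁ * ((y₁ / Nat.gcd y y₁ : ℕ) : ℤ) -
        h₁ * n * ((y / Nat.gcd y y₁ : ℕ) : ℤ)) ((x * Nat.lcm y y₁ : ℕ) : ℤ) : ℝ) := by
    rw [← Real.sqrt_mul (abs_nonneg _)]
    exact Real.sqrt_le_sqrt hκ1
  have hA : 0 ≤ C₁ * ((x * Nat.lcm y y₁ : ℕ) : ℝ) ^ ε' := by positivity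
  have hB : 0 ≤ √((x * Nat.lcm y y₁ : ℕ) : ℝ) +
      ((M₂ : ℝ) - M₁) / √((x * Nat.lcm y y₁ : ℕ) : ℝ) := by positivity
  calc C₁ * ((x * Nat.lcm y y₁ : ℕ) : ℝ) ^ ε' * √(Int.gcd κ ((x * Nat.lcm y y₁ : ℕ) : ℤ) : ℝ) *
        (√((x * Nat.lcm y y₁ : ℕ) : ℝ) + ((M₂ : ℝ) - M₁) / √((x * Nat.lcm y y₁ : ℕ) : ℝ))
      ≤ C₁ * ((x * Nat.lcm y y₁ : ℕ) : ℝ) ^ ε' * (√|(c : ℝ)| *
      √(Int.gcd ((h : ℤ) * n₁ * ((y₁ / Nat.gcd y y₁ : ℕ) : ℤ) -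
        h₁ * n * ((y / Nat.gcd y y₁ : ℕ) : ℤ)) ((x * Nat.lcm y y₁ : ℕ) : ℤ) : ℝ)) *
        (√((x * Nat.lcm y y₁ : ℕ) : ℝ) + ((M₂ : ℝ) - M₁) / √((x * Nat.lcm y y₁ : ℕ) : ℝ)) :=
        mul_le_mul_of_nonneg_right (mul_le_mul_of_nonneg_left hsq hA) hB
    _ = _ := by ring

private theorem perx_BIV (hC : StCNT) (hD : StDIA) (H U U' x : ℕ) (hx : 1 ≤ x)
    (T K M' : ℝ) (hM' : 0 ≤ M') (hK : 0 ≤ K)
    (hT : ∀ j : ℕ, 1 ≤ j → j ≤ H * U * U' → (j.divisors.card : ℝ) ≤ T)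
    (hT' : ∀ j : ℕ, 1 ≤ j → j ≤ H * U → (j.divisors.card : ℝ) ≤ T)
    (D : (ℕ × ℕ × ℕ) × (ℕ × ℕ × ℕ) → ℝ) (L : ℕ → ℕ → ℝ) (hL0 : ∀ y y₁, 0 ≤ L y y₁)
    (hL : ∀ y ∈ Icc 1 U', ∀ y₁ ∈ Icc 1 U',
      L y y₁ * ((x * Nat.lcm y y₁).divisors.card : ℝ) ≤ K)
    (hD1 : ∀ v, D v ≤ M')
    (hD2 : ∀ v : (ℕ × ℕ × ℕ) × (ℕ × ℕ × ℕ), D v ≤ L v.1.2.2 v.2.2.2 *
      √(Int.gcd ((v.1.1 : ℤ) * v.2.2.1 * ((v.2.2.2 / Nat.gcd v.1.2.2 v.2.2.2 : ℕ) : ℤ) -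
        v.2.1 * v.1.2.1 * ((v.1.2.2 / Nat.gcd v.1.2.2 v.2.2.2 : ℕ) : ℤ))
        ((x * Nat.lcm v.1.2.2 v.2.2.2 : ℕ) : ℤ) : ℝ)) :
    ∑ v ∈ (Icc 1 H ×ˢ (Icc 1 U ×ˢ Icc 1 U')) ×ˢ (Icc 1 H ×ˢ (Icc 1 U ×ˢ Icc 1 U')), D v ≤
      M' * (T ^ 2 * ((H : ℝ) * U * U')) +
      (U' : ℝ) ^ 2 * (K * (T ^ 2 * (((H : ℝ) * U) ^ 2 + (H : ℝ) * U * √((H : ℝ) * U * U')))) := by
  obtain ⟨TT, hTT⟩ : ∃ TT : Finset ((ℕ × ℕ × ℕ) × (ℕ × ℕ × ℕ)), TT =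
    (Icc 1 H ×ˢ (Icc 1 U ×ˢ Icc 1 U')) ×ˢ (Icc 1 H ×ˢ (Icc 1 U ×ˢ Icc 1 U')) := ⟨_, rfl⟩
  obtain ⟨G, hG⟩ : ∃ G : ℕ → ℕ → (ℕ × ℕ) × (ℕ × ℕ) → ℝ, G = fun y y₁ w =>
      if (w.1.1 : ℤ) * w.2.2 * ((y₁ / Nat.gcd y y₁ : ℕ) : ℤ) -
        w.2.1 * w.1.2 * ((y / Nat.gcd y y₁ : ℕ) : ℤ) ≠ 0 then
        √(Int.gcd ((w.1.1 : ℤ) * w.2.2 * ((y₁ / Nat.gcd y y₁ : ℕ) : ℤ) -
          w.2.1 * w.1.2 * ((y / Nat.gcd y y₁ : ℕ) : ℤ)) ((x * Nat.lcm y y₁ : ℕ) : ℤ) : ℝ)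
      else 0 := ⟨_, rfl⟩
  have hpt : ∀ v ∈ TT, D v ≤
      (if v.1.1 * v.2.2.1 * v.2.2.2 = v.2.1 * v.1.2.1 * v.1.2.2 then M' else 0) +
      L v.1.2.2 v.2.2.2 * G v.1.2.2 v.2.2.2 ((v.1.1, v.1.2.1), (v.2.1, v.2.2.1)) := by
    intro v hv
    rw [hTT, mem_product, mem_product, mem_product, mem_product, mem_product] at hv
    by_cases hz : (v.1.1 : ℤ) * v.2.2.1 * ((v.2.2.2 / Nat.gcd v.1.2.2 v.2.2.2 : ℕ) : ℤ) -
        v.2.1 * v.1.2.1 * ((v.1.2.2 / Nat.gcd v.1.2.2 v.2.2.2 : ℕ) : ℤ) = 0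
    · have h1 : v.1.1 * v.2.2.1 * v.2.2.2 = v.2.1 * v.1.2.1 * v.1.2.2 := by
        have h2 : v.1.1 * v.2.2.1 * (v.2.2.2 / Nat.gcd v.1.2.2 v.2.2.2) =
            v.2.1 * v.1.2.1 * (v.1.2.2 / Nat.gcd v.1.2.2 v.2.2.2) := by
          have := sub_eq_zero.1 hz
          exact_mod_cast this
        have h3 : v.2.2.2 / Nat.gcd v.1.2.2 v.2.2.2 * Nat.gcd v.1.2.2 v.2.2.2 = v.2.2.2 :=
          Nat.div_mul_cancel (Nat.gcd_dvd_right _ _)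
        have h4 : v.1.2.2 / Nat.gcd v.1.2.2 v.2.2.2 * Nat.gcd v.1.2.2 v.2.2.2 = v.1.2.2 :=
          Nat.div_mul_cancel (Nat.gcd_dvd_left _ _)
        calc v.1.1 * v.2.2.1 * v.2.2.2 = v.1.1 * v.2.2.1 *
              (v.2.2.2 / Nat.gcd v.1.2.2 v.2.2.2 * Nat.gcd v.1.2.2 v.2.2.2) := by rw [h3]
          _ = v.1.1 * v.2.2.1 * (v.2.2.2 / Nat.gcd v.1.2.2 v.2.2.2) *
              Nat.gcd v.1.2.2 v.2.2.2 := by ring
          _ = v.2.1 * v.1.2.1 * (v.1.2.2 / Nat.gcd v.1.2.2 v.2.2.2) *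
              Nat.gcd v.1.2.2 v.2.2.2 := by rw [h2]
          _ = v.2.1 * v.1.2.1 *
              (v.1.2.2 / Nat.gcd v.1.2.2 v.2.2.2 * Nat.gcd v.1.2.2 v.2.2.2) := by ring
          _ = v.2.1 * v.1.2.1 * v.1.2.2 := by rw [h4]
      rw [if_pos h1]
      have h5 : G v.1.2.2 v.2.2.2 ((v.1.1, v.1.2.1), (v.2.1, v.2.2.1)) = 0 := by
        rw [hG]
        exact if_neg (fun h => h hz)
      rw [h5, mul_zero, add_zero]
      exact hD1 v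
    · have h5 : G v.1.2.2 v.2.2.2 ((v.1.1, v.1.2.1), (v.2.1, v.2.2.1)) =
          √(Int.gcd ((v.1.1 : ℤ) * v.2.2.1 * ((v.2.2.2 / Nat.gcd v.1.2.2 v.2.2.2 : ℕ) : ℤ) -
            v.2.1 * v.1.2.1 * ((v.1.2.2 / Nat.gcd v.1.2.2 v.2.2.2 : ℕ) : ℤ))
            ((x * Nat.lcm v.1.2.2 v.2.2.2 : ℕ) : ℤ) : ℝ) := by
        rw [hG]
        exact if_pos hz
      rw [h5]
      have h6 : (0 : ℝ) ≤
          if v.1.1 * v.2.2.1 * v.2.2.2 = v.2.1 * v.1.2.1 * v.1.2.2 then M' else 0 := by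
        split_ifs
        · exact hM'
        · exact le_rfl
      have h7 := hD2 v
      linarith
  rw [← hTT]
  refine (Finset.sum_le_sum hpt).trans ?_
  rw [Finset.sum_add_distrib]
  apply add_le_add
  · rw [← Finset.sum_filter, Finset.sum_const, nsmul_eq_mul, mul_comm]
    apply mul_le_mul_of_nonneg_left _ hM'
    rw [hTT]
    exact hD H U U' T hT
  · have hre : ∑ v ∈ TT, L v.1.2.2 v.2.2.2 *
        G v.1.2.2 v.2.2.2 ((v.1.1, v.1.2.1), (v.2.1, v.2.2.1)) =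
        ∑ u ∈ Icc 1 U' ×ˢ (Icc 1 U' ×ˢ ((Icc 1 H ×ˢ Icc 1 U) ×ˢ (Icc 1 H ×ˢ Icc 1 U))),
          L u.1 u.2.1 * G u.1 u.2.1 u.2.2 := by
      refine Finset.sum_nbij' (fun v => (v.1.2.2, v.2.2.2, ((v.1.1, v.1.2.1), (v.2.1, v.2.2.1))))
        (fun u => ((u.2.2.1.1, u.2.2.1.2, u.1), (u.2.2.2.1, u.2.2.2.2, u.2.1))) ?_ ?_ ?_ ?_ ?_
      · intro v hv
        rw [hTT] at hv
        simp only [mem_product] at hv ⊢
        tauto
      · intro u hu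
        rw [hTT]
        simp only [mem_product] at hu ⊢
        tauto
      · intro v _
        rfl
      · intro u _
        rfl
      · intro v _
        rfl
    rw [hre, Finset.sum_product]
    have hy : ∀ y ∈ Icc 1 U', ∑ u ∈ Icc 1 U' ×ˢ ((Icc 1 H ×ˢ Icc 1 U) ×ˢ (Icc 1 H ×ˢ Icc 1 U)),
        L y u.1 * G y u.1 u.2 ≤ (U' : ℝ) *
          (K * (T ^ 2 * (((H : ℝ) * U) ^ 2 + (H : ℝ) * U * √((H : ℝ) * U * U')))) := by
      intro y hy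
      rw [Finset.sum_product]
      have hy1 : ∀ y₁ ∈ Icc 1 U', ∑ w ∈ (Icc 1 H ×ˢ Icc 1 U) ×ˢ (Icc 1 H ×ˢ Icc 1 U),
          L y y₁ * G y y₁ w ≤
          K * (T ^ 2 * (((H : ℝ) * U) ^ 2 + (H : ℝ) * U * √((H : ℝ) * U * U'))) := by
        intro y₁ hy₁
        have hya := Finset.mem_Icc.1 hy
        have hyb := Finset.mem_Icc.1 hy₁
        have hg0 : 0 < Nat.gcd y y₁ := Nat.gcd_pos_of_pos_left _ hya.1
        have hX1 : 1 ≤ y₁ / Nat.gcd y y₁ :=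
          Nat.div_pos (Nat.le_of_dvd hyb.1 (Nat.gcd_dvd_right _ _)) hg0
        have hY1 : 1 ≤ y / Nat.gcd y y₁ :=
          Nat.div_pos (Nat.le_of_dvd hya.1 (Nat.gcd_dvd_left _ _)) hg0
        have hXU : y₁ / Nat.gcd y y₁ ≤ U' := (Nat.div_le_self _ _).trans hyb.2
        have hYU : y / Nat.gcd y y₁ ≤ U' := (Nat.div_le_self _ _).trans hya.2
        have hXY : Nat.Coprime (y₁ / Nat.gcd y y₁) (y / Nat.gcd y y₁) :=
          (Nat.coprime_div_gcd_div_gcd hg0).symm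
        have hR1 : 1 ≤ x * Nat.lcm y y₁ :=
          Nat.mul_pos hx (Nat.lcm_pos hya.1 hyb.1)
        have hcnt := hC H U U' (x * Nat.lcm y y₁) (y₁ / Nat.gcd y y₁) (y / Nat.gcd y y₁) T hR1
          hX1 hXU hY1 hYU hXY hT'
        rw [Finset.sum_filter] at hcnt
        rw [← Finset.mul_sum]
        have hGs : ∑ w ∈ (Icc 1 H ×ˢ Icc 1 U) ×ˢ (Icc 1 H ×ˢ Icc 1 U), G y y₁ w ≤
            T ^ 2 * (x * Nat.lcm y y₁).divisors.card *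
              (((H : ℝ) * U) ^ 2 + (H : ℝ) * U * √((H : ℝ) * U * U')) := by
          rw [hG]
          exact hcnt
        have hQ0 : 0 ≤ T ^ 2 * (((H : ℝ) * U) ^ 2 + (H : ℝ) * U * √((H : ℝ) * U * U')) := by
          positivity
        calc L y y₁ * ∑ w ∈ (Icc 1 H ×ˢ Icc 1 U) ×ˢ (Icc 1 H ×ˢ Icc 1 U), G y y₁ w
            ≤ L y y₁ * (T ^ 2 * (x * Nat.lcm y y₁).divisors.card *
              (((H : ℝ) * U) ^ 2 + (H : ℝ) * U * √((H : ℝ) * U * U'))) :=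
              mul_le_mul_of_nonneg_left hGs (hL0 _ _)
          _ = (L y y₁ * ((x * Nat.lcm y y₁).divisors.card : ℝ)) *
              (T ^ 2 * (((H : ℝ) * U) ^ 2 + (H : ℝ) * U * √((H : ℝ) * U * U'))) := by ring
          _ ≤ K * (T ^ 2 * (((H : ℝ) * U) ^ 2 + (H : ℝ) * U * √((H : ℝ) * U * U'))) :=
              mul_le_mul_of_nonneg_right (hL y hy y₁ hy₁) hQ0
      refine (Finset.sum_le_card_nsmul _ _ _ hy1).trans ?_
      rw [nsmul_eq_mul, Nat.card_Icc, Nat.add_sub_cancel]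
    refine (Finset.sum_le_card_nsmul _ _ _ hy).trans ?_
    rw [nsmul_eq_mul, Nat.card_Icc, Nat.add_sub_cancel]
    apply le_of_eq
    ring

private theorem sumsqrt_BIV (A : ℕ) : ∑ x ∈ Icc 1 A, 1 / √(x : ℝ) ≤ 2 * √(A : ℝ) := by
  induction A with
  | zero => simp
  | succ A ih =>
    rw [Finset.sum_Icc_succ_top (by omega)]
    have hs : √((A + 1 : ℕ) : ℝ) ^ 2 = A + 1 := by
      rw [Real.sq_sqrt (by positivity)]
      push_cast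
      ring
    have ht : √(A : ℝ) ^ 2 = A := Real.sq_sqrt (by positivity)
    have hpos : 0 < √((A + 1 : ℕ) : ℝ) := Real.sqrt_pos.2 (by positivity)
    have h1 : 1 / √((A + 1 : ℕ) : ℝ) ≤ 2 * √((A + 1 : ℕ) : ℝ) - 2 * √(A : ℝ) := by
      rw [div_le_iff₀ hpos]
      nlinarith [sq_nonneg (√((A + 1 : ℕ) : ℝ) - √(A : ℝ))]
    linarith

private theorem threehalf_BIV (x : ℝ) (hx : 0 ≤ x) : x ^ (3 / 2 : ℝ) = x * √x := by
  have h : (3 / 2 : ℝ) = 1 + 1 / 2 := by norm_num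
  rcases eq_or_lt_of_le hx with h0 | h0
  · rw [← h0, Real.zero_rpow (by norm_num), zero_mul]
  · rw [h, Real.rpow_add h0, Real.rpow_one, Real.sqrt_eq_rpow]

/-- BIV. -/
theorem hBIV (hP : StPHA) (hI : StINS) (hC : StCNT) (hD : StDIA) (hDB : StDB) : StBIV := by
  intro ε hε
  obtain ⟨C₁, hC₁, hI'⟩ := hI (ε / 12) (by positivity)
  obtain ⟨C₂, hC₂, hD2⟩ := hDB (ε / 12) (by positivity)
  have hC₂0 : 0 < C₂ := by linarith
  refine ⟨C₂ ^ 2 + 2 * C₁ * C₂ ^ 3, by positivity, ?_⟩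
  intro e μ g M₁ M₂ A H U U' c W al ga he hg hc hM hA hH hU hU' hW hM2W hAW hHW hUW hU'W hal hga
  have hMM : (M₁ : ℝ) ≤ M₂ := by exact_mod_cast hM
  obtain ⟨M', hM'd⟩ : ∃ M' : ℝ, M' = (M₂ : ℝ) - M₁ + 1 := ⟨_, rfl⟩
  have hM'1 : 1 ≤ M' := by
    rw [hM'd]
    linarith
  have hM'0 : 0 ≤ M' := by linarith
  obtain ⟨S, hS⟩ : ∃ S : Finset ℕ, S = (Ioc M₁ M₂).filter (fun m => m % e = μ) := ⟨_, rfl⟩
  rw [← hS, ← hM'd]
  have hScard : (S.card : ℝ) ≤ M' := by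
    have h1 : S.card ≤ M₂ - M₁ := by
      rw [hS]
      exact (Finset.card_filter_le _ _).trans (by simp)
    have h2 : (S.card : ℝ) ≤ ((M₂ - M₁ : ℕ) : ℝ) := by exact_mod_cast h1
    rw [Nat.cast_sub hM] at h2
    rw [hM'd]
    linarith
  obtain ⟨TT, hTT⟩ : ∃ TT : Finset (ℕ × ℕ × ℕ), TT = Icc 1 H ×ˢ (Icc 1 U ×ˢ Icc 1 U') := ⟨_, rfl⟩
  have hsum : ∑ m ∈ S, ∑ x ∈ Icc 1 A, ∑ h ∈ Icc 1 H, ∑ n ∈ Icc 1 U,
      ∑ y ∈ (Icc 1 U').filter (fun y => Squarefree (x * y) ∧ Nat.Coprime (x * y) (e * g * m * n)),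
        al m * ga x h n y *
          ee (((h * c * (iv (x * y) (g * m * n) : ℤ) : ℤ) : ℝ) / ((x * y : ℕ) : ℝ)) =
      ∑ p ∈ S ×ˢ Icc 1 A, al p.1 * ∑ v ∈ TT, fB e g c p.2 (ga p.2) p.1 v := by
    rw [Finset.sum_product]
    refine Finset.sum_congr rfl fun m _ => Finset.sum_congr rfl fun x _ => ?_
    rw [hTT, Finset.sum_product, Finset.mul_sum]
    refine Finset.sum_congr rfl fun h _ => ?_
    rw [Finset.sum_product, Finset.mul_sum]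
    refine Finset.sum_congr rfl fun n _ => ?_
    rw [Finset.sum_filter, Finset.mul_sum]
    refine Finset.sum_congr rfl fun y _ => ?_
    by_cases hk : Squarefree (x * y) ∧ Nat.Coprime (x * y) (e * g * m * n)
    · rw [if_pos hk]
      unfold fB
      rw [if_pos hk]
      ring
    · rw [if_neg hk]
      unfold fB
      rw [if_neg hk, mul_zero]
  rw [hsum]
  -- Cauchy-Schwarz
  have hCS : ‖∑ p ∈ S ×ˢ Icc 1 A, al p.1 * ∑ v ∈ TT, fB e g c p.2 (ga p.2) p.1 v‖ ^ 2 ≤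
      (M' * A) * ∑ p ∈ S ×ˢ Icc 1 A, ‖∑ v ∈ TT, fB e g c p.2 (ga p.2) p.1 v‖ ^ 2 := by
    have h1 : ‖∑ p ∈ S ×ˢ Icc 1 A, al p.1 * ∑ v ∈ TT, fB e g c p.2 (ga p.2) p.1 v‖ ≤
        ∑ p ∈ S ×ˢ Icc 1 A, ‖∑ v ∈ TT, fB e g c p.2 (ga p.2) p.1 v‖ := by
      refine (norm_sum_le _ _).trans (Finset.sum_le_sum fun p _ => ?_)
      rw [norm_mul]
      exact mul_le_of_le_one_left (norm_nonneg _) (hal p.1)
    have h2 : (∑ p ∈ S ×ˢ Icc 1 A, ‖∑ v ∈ TT, fB e g c p.2 (ga p.2) p.1 v‖) ^ 2 ≤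
        ((S ×ˢ Icc 1 A).card : ℝ) *
          ∑ p ∈ S ×ˢ Icc 1 A, ‖∑ v ∈ TT, fB e g c p.2 (ga p.2) p.1 v‖ ^ 2 :=
      sq_sum_le_card_mul_sum_sq
    have h3 : ((S ×ˢ Icc 1 A).card : ℝ) ≤ M' * A := by
      rw [Finset.card_product, Nat.card_Icc, Nat.add_sub_cancel, Nat.cast_mul]
      exact mul_le_mul_of_nonneg_right hScard (Nat.cast_nonneg _)
    refine (pow_le_pow_left₀ (norm_nonneg _) h1 2).trans (h2.trans ?_)
    exact mul_le_mul_of_nonneg_right h3 (Finset.sum_nonneg fun p _ => sq_nonneg _)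
  refine hCS.trans ?_
  -- powers of `W`
  have hW0 : 0 < W := by linarith
  obtain ⟨w, hw⟩ : ∃ w : ℝ, w = W ^ (ε / 4) := ⟨_, rfl⟩
  have hw1 : 1 ≤ w := by
    rw [hw]
    exact Real.one_le_rpow hW (by positivity)
  have hw0 : 0 < w := by linarith
  have hw4 : W ^ ε = w ^ 4 := by
    rw [hw, ← Real.rpow_natCast, ← Real.rpow_mul hW0.le]
    congr 1
    push_cast
    ring
  have hpow : ∀ t : ℝ, 0 ≤ t → t ≤ W ^ 3 → t ^ (ε / 12) ≤ w := by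
    intro t ht0 ht
    calc t ^ (ε / 12) ≤ (W ^ 3) ^ (ε / 12) := Real.rpow_le_rpow ht0 ht (by positivity)
      _ = w := by
          rw [hw, ← Real.rpow_natCast, ← Real.rpow_mul hW0.le]
          congr 1
          push_cast
          ring
  have hτ : ∀ j : ℕ, 1 ≤ j → (j : ℝ) ≤ W ^ 3 → (j.divisors.card : ℝ) ≤ C₂ * w := by
    intro j hj hjW
    exact (hD2 j hj).trans (mul_le_mul_of_nonneg_left (hpow j (Nat.cast_nonneg _) hjW) hC₂0.le)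
  have hHUU : (H : ℝ) * U * U' ≤ W ^ 3 := by
    calc (H : ℝ) * U * U' ≤ W * W * W := by
          apply mul_le_mul (mul_le_mul hHW hUW (Nat.cast_nonneg _) hW0.le) hU'W
            (Nat.cast_nonneg _) (by positivity)
      _ = W ^ 3 := by ring
  have hT : ∀ j : ℕ, 1 ≤ j → j ≤ H * U * U' → (j.divisors.card : ℝ) ≤ C₂ * w := by
    intro j hj hj2
    apply hτ j hj
    have h1 : (j : ℝ) ≤ (H : ℝ) * U * U' := by exact_mod_cast hj2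
    linarith
  have hT' : ∀ j : ℕ, 1 ≤ j → j ≤ H * U → (j.divisors.card : ℝ) ≤ C₂ * w := by
    intro j hj hj2
    apply hT j hj
    exact hj2.trans (Nat.le_mul_of_pos_right _ hU')
  -- the sum for given `x`
  obtain ⟨sc, hsc⟩ : ∃ sc : ℝ, sc = √|(c : ℝ)| := ⟨_, rfl⟩
  have hsc1 : 1 ≤ sc := by
    rw [hsc]
    apply Real.one_le_sqrt.2
    have h1 : (1 : ℤ) ≤ |c| := Int.one_le_abs hc
    exact_mod_cast h1
  have hsc0 : 0 < sc := by linarith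
  obtain ⟨Q, hQ⟩ : ∃ Q : ℝ, Q = ((H : ℝ) * U) ^ 2 + (H : ℝ) * U * √((H : ℝ) * U * U') := ⟨_, rfl⟩
  have hQ0 : 0 ≤ Q := by
    rw [hQ]
    positivity
  have hperx : ∀ x ∈ Icc 1 A, ∑ m ∈ S, ‖∑ v ∈ TT, fB e g c x (ga x) m v‖ ^ 2 ≤
      M' * ((C₂ * w) ^ 2 * ((H : ℝ) * U * U')) +
      (U' : ℝ) ^ 2 * ((C₁ * w * sc * (√(A : ℝ) * U' + M' / √(x : ℝ)) * (C₂ * w)) *
        ((C₂ * w) ^ 2 * Q)) := by
    intro x hx
    have hxx := Finset.mem_Icc.1 hx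
    have hx0 : (0 : ℝ) < x := by exact_mod_cast hxx.1
    refine (bil_sq S TT (fun m v => fB e g c x (ga x) m v)).trans ?_
    rw [hTT, hQ]
    refine perx_BIV hC hD H U U' x hxx.1 (C₂ * w)
      (C₁ * w * sc * (√(A : ℝ) * U' + M' / √(x : ℝ)) * (C₂ * w)) M' hM'0 (by positivity) hT hT'
      (fun v => ‖∑ m ∈ S, fB e g c x (ga x) m v.1 * (starRingEnd ℂ) (fB e g c x (ga x) m v.2)‖)
      (fun y y₁ => C₁ * ((x * Nat.lcm y y₁ : ℕ) : ℝ) ^ (ε / 12) * √|(c : ℝ)| *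
        (√((x * Nat.lcm y y₁ : ℕ) : ℝ) + ((M₂ : ℝ) - M₁) / √((x * Nat.lcm y y₁ : ℕ) : ℝ)))
      ?_ ?_ ?_ ?_
    · intro y y₁
      have : 0 ≤ (M₂ : ℝ) - M₁ := by linarith
      positivity
    · intro y hy y₁ hy₁
      have hya := Finset.mem_Icc.1 hy
      have hyb := Finset.mem_Icc.1 hy₁
      have hl1 : 1 ≤ Nat.lcm y y₁ := Nat.lcm_pos hya.1 hyb.1
      have hR1 : 1 ≤ x * Nat.lcm y y₁ := Nat.mul_pos hxx.1 hl1
      have hlU : Nat.lcm y y₁ ≤ U' * U' :=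
        (Nat.le_of_dvd (Nat.mul_pos hya.1 hyb.1) (Nat.lcm_dvd_mul y y₁)).trans
          (Nat.mul_le_mul hya.2 hyb.2)
      have hRA : x * Nat.lcm y y₁ ≤ A * (U' * U') := Nat.mul_le_mul hxx.2 hlU
      have hxR : x ≤ x * Nat.lcm y y₁ := Nat.le_mul_of_pos_right _ hl1
      generalize x * Nat.lcm y y₁ = R at hR1 hRA hxR ⊢
      have hR0 : (0 : ℝ) < R := by exact_mod_cast hR1
      have hRA' : (R : ℝ) ≤ A * ((U' : ℝ) * U') := by exact_mod_cast hRA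
      have hxR' : (x : ℝ) ≤ R := by exact_mod_cast hxR
      have hRW : (R : ℝ) ≤ W ^ 3 := by
        calc (R : ℝ) ≤ A * ((U' : ℝ) * U') := hRA'
          _ ≤ W * (W * W) := by
              apply mul_le_mul hAW (mul_le_mul hU'W hU'W (Nat.cast_nonneg _) hW0.le)
                (by positivity) hW0.le
          _ = W ^ 3 := by ring
      have h1 : (R : ℝ) ^ (ε / 12) ≤ w := hpow R hR0.le hRW
      have h2 : (R.divisors.card : ℝ) ≤ C₂ * w := hτ R hR1 hRW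
      have h3 : √(R : ℝ) ≤ √(A : ℝ) * U' := by
        calc √(R : ℝ) ≤ √(A * ((U' : ℝ) * U')) := Real.sqrt_le_sqrt hRA'
          _ = √(A : ℝ) * U' := by
              rw [Real.sqrt_mul (Nat.cast_nonneg _), Real.sqrt_mul_self (Nat.cast_nonneg _)]
      have h4 : ((M₂ : ℝ) - M₁) / √(R : ℝ) ≤ M' / √(x : ℝ) := by
        apply div_le_div₀ hM'0 (by rw [hM'd]; linarith) (Real.sqrt_pos.2 hx0)
        exact Real.sqrt_le_sqrt hxR'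
      have h5 : 0 ≤ (M₂ : ℝ) - M₁ := by linarith
      rw [← hsc]
      apply mul_le_mul _ h2 (Nat.cast_nonneg _) (by positivity)
      apply mul_le_mul _ (add_le_add h3 h4) (by positivity) (by positivity)
      apply mul_le_mul_of_nonneg_right _ hsc0.le
      exact mul_le_mul_of_nonneg_left h1 hC₁.le
    · intro v
      refine (norm_sum_le _ _).trans ?_
      have h1 : ∀ m ∈ S, ‖fB e g c x (ga x) m v.1 *
          (starRingEnd ℂ) (fB e g c x (ga x) m v.2)‖ ≤ 1 := by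
        intro m _
        rw [norm_mul, RCLike.norm_conj]
        exact mul_le_one₀ (fB_norm _ _ _ _ _ (hga x) _ _) (norm_nonneg _)
          (fB_norm _ _ _ _ _ (hga x) _ _)
      refine (Finset.sum_le_card_nsmul _ _ _ h1).trans ?_
      rw [nsmul_eq_mul, mul_one]
      exact hScard
    · rintro ⟨⟨h, n, y⟩, ⟨h₁, n₁, y₁⟩⟩
      have h1 := inner_BIV hP C₁ (ε / 12) hC₁ hI' e μ g M₁ M₂ c he hc hM x (ga x) (hga x)
        h n y h₁ n₁ y₁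
      rw [← hS] at h1
      exact h1
  have htot : ∑ p ∈ S ×ˢ Icc 1 A, ‖∑ v ∈ TT, fB e g c p.2 (ga p.2) p.1 v‖ ^ 2 ≤
      A * (M' * ((C₂ * w) ^ 2 * ((H : ℝ) * U * U'))) +
      (U' : ℝ) ^ 2 * ((C₁ * w * sc * (A * (√(A : ℝ) * U') + M' * (2 * √(A : ℝ))) * (C₂ * w)) *
        ((C₂ * w) ^ 2 * Q)) := by
    rw [Finset.sum_product_right]
    refine (Finset.sum_le_sum hperx).trans ?_
    rw [Finset.sum_add_distrib, Finset.sum_const, Nat.card_Icc, Nat.add_sub_cancel, nsmul_eq_mul]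
    apply add_le_add le_rfl
    have h1 : ∑ x ∈ Icc 1 A, (U' : ℝ) ^ 2 *
        ((C₁ * w * sc * (√(A : ℝ) * U' + M' / √(x : ℝ)) * (C₂ * w)) * ((C₂ * w) ^ 2 * Q)) =
        (U' : ℝ) ^ 2 * ((C₁ * w * sc * (∑ x ∈ Icc 1 A, (√(A : ℝ) * U' + M' / √(x : ℝ))) *
          (C₂ * w)) * ((C₂ * w) ^ 2 * Q)) := by
      rw [Finset.mul_sum, Finset.sum_mul, Finset.sum_mul, Finset.mul_sum]
    rw [h1]
    have h2 : ∑ x ∈ Icc 1 A, (√(A : ℝ) * U' + M' / √(x : ℝ)) ≤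
        A * (√(A : ℝ) * U') + M' * (2 * √(A : ℝ)) := by
      rw [Finset.sum_add_distrib, Finset.sum_const, Nat.card_Icc, Nat.add_sub_cancel,
        nsmul_eq_mul]
      apply add_le_add le_rfl
      have h3 : ∑ x ∈ Icc 1 A, M' / √(x : ℝ) = M' * ∑ x ∈ Icc 1 A, 1 / √(x : ℝ) := by
        rw [Finset.mul_sum]
        refine Finset.sum_congr rfl fun x _ => ?_
        ring
      rw [h3]
      exact mul_le_mul_of_nonneg_left (sumsqrt_BIV A) hM'0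
    gcongr
  refine (mul_le_mul_of_nonneg_left htot (by positivity)).trans ?_
  -- constants
  have hQ2 : ((H : ℝ) * U) ^ 2 + ((H : ℝ) * U) ^ (3 / 2 : ℝ) * √(U' : ℝ) = Q := by
    rw [hQ, threehalf_BIV _ (by positivity), Real.sqrt_mul (by positivity) (U' : ℝ)]
    ring
  rw [hQ2, threehalf_BIV (A : ℝ) (Nat.cast_nonneg _), hw4, ← hsc]
  obtain ⟨P, hPd⟩ : ∃ P : ℝ, P = (H : ℝ) * U * U' := ⟨_, rfl⟩
  have hP0 : 0 ≤ P := by
    rw [hPd]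
    positivity
  rw [← hPd]
  obtain ⟨sA, hsA⟩ : ∃ sA : ℝ, sA = √(A : ℝ) := ⟨_, rfl⟩
  have hsA0 : 0 ≤ sA := by
    rw [hsA]
    positivity
  rw [← hsA]
  have hA0 : (0 : ℝ) ≤ A := Nat.cast_nonneg _
  have hU'0 : (0 : ℝ) ≤ U' := Nat.cast_nonneg _
  generalize (A : ℝ) = a at hA0 ⊢
  generalize (U' : ℝ) = u at hU'0 ⊢
  have e1 : a * (M' * ((C₂ * w) ^ 2 * P)) ≤ C₂ ^ 2 * w ^ 4 * sc * (M' * a * P) := by
    have h1 : 1 ≤ w ^ 2 * sc := by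
      have : 1 ≤ w ^ 2 := one_le_pow₀ hw1
      nlinarith
    have h2 : 0 ≤ C₂ ^ 2 * w ^ 2 * (M' * a * P) := by positivity
    calc a * (M' * ((C₂ * w) ^ 2 * P)) = C₂ ^ 2 * w ^ 2 * (M' * a * P) * 1 := by ring
      _ ≤ C₂ ^ 2 * w ^ 2 * (M' * a * P) * (w ^ 2 * sc) := mul_le_mul_of_nonneg_left h1 h2
      _ = C₂ ^ 2 * w ^ 4 * sc * (M' * a * P) := by ring
  have e2 : u ^ 2 * ((C₁ * w * sc * (a * (sA * u) + M' * (2 * sA)) * (C₂ * w)) *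
      ((C₂ * w) ^ 2 * Q)) ≤
      2 * C₁ * C₂ ^ 3 * w ^ 4 * sc * (Q * (a * sA * u ^ 3 + M' * sA * u ^ 2)) := by
    have h1 : 0 ≤ C₁ * C₂ ^ 3 * w ^ 4 * sc * Q * (a * sA * u ^ 3) := by positivity
    calc u ^ 2 * ((C₁ * w * sc * (a * (sA * u) + M' * (2 * sA)) * (C₂ * w)) *
          ((C₂ * w) ^ 2 * Q))
        = 2 * C₁ * C₂ ^ 3 * w ^ 4 * sc * (Q * (a * sA * u ^ 3 + M' * sA * u ^ 2)) -
          C₁ * C₂ ^ 3 * w ^ 4 * sc * Q * (a * sA * u ^ 3) := by ring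
      _ ≤ 2 * C₁ * C₂ ^ 3 * w ^ 4 * sc * (Q * (a * sA * u ^ 3 + M' * sA * u ^ 2)) := by linarith
  have e3 : 0 ≤ M' * a * P := by positivity
  have e4 : 0 ≤ Q * (a * sA * u ^ 3 + M' * sA * u ^ 2) := by positivity
  have e5 : a * (M' * ((C₂ * w) ^ 2 * P)) +
      u ^ 2 * ((C₁ * w * sc * (a * (sA * u) + M' * (2 * sA)) * (C₂ * w)) *
      ((C₂ * w) ^ 2 * Q)) ≤ (C₂ ^ 2 + 2 * C₁ * C₂ ^ 3) * w ^ 4 * sc *
      (M' * a * P + Q * (a * sA * u ^ 3 + M' * sA * u ^ 2)) := by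
    have h1 : 0 ≤ C₂ ^ 2 * w ^ 4 * sc * (Q * (a * sA * u ^ 3 + M' * sA * u ^ 2)) := by
      positivity
    have h2 : 0 ≤ 2 * C₁ * C₂ ^ 3 * w ^ 4 * sc * (M' * a * P) := by positivity
    nlinarith
  calc (M' * a) * (a * (M' * ((C₂ * w) ^ 2 * P)) +
      u ^ 2 * ((C₁ * w * sc * (a * (sA * u) + M' * (2 * sA)) * (C₂ * w)) *
      ((C₂ * w) ^ 2 * Q)))
      ≤ (M' * a) * ((C₂ ^ 2 + 2 * C₁ * C₂ ^ 3) * w ^ 4 * sc *
      (M' * a * P + Q * (a * sA * u ^ 3 + M' * sA * u ^ 2))) :=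
        mul_le_mul_of_nonneg_left e5 (by positivity)
    _ = (C₂ ^ 2 + 2 * C₁ * C₂ ^ 3) * w ^ 4 * sc * (M' * a) *
      (M' * a * P + Q * (a * sA * u ^ 3 + M' * sA * u ^ 2)) := by ring

end Pool.Agent.Helper69.KP
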